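import Pool.Agent.Lib_MP_e5a66a_an.XMain
import Pool.Agent.Lib_MP_e5a66a_an.Wrap2
import Pool.Agent.Lib_MP_e5a66a_an.Ergodicity

/-!
# Measure-theoretic chaos is not inherited by extensions

There are an ergodic system `X` which is chaotic in all four senses and an ergodic extension `Y` of
`X` (a two-point extension) which is chaotic in none of the four senses. All definitions are in
`Pool/Agent/Lib_MP_e5a66a_an/Defs.lean`. The system `X` is given by `TX` on
`ℤ_2 × (ZMod 2)^(ℕ × ℕ)`, and `Y` by `TY` on `XX × ZMod 2`, see
`Pool/Agent/Lib_MP_e5a66a_an/Base.lean`. For one refining sequence of `Y` there is no scrambled pair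
at all (`exists_badSeq`).
-/

open MeasureTheory Filter Topology

namespace Pool.Agent.Results.MP_e5a66a_an.ChaosNotInherited

open Pool.MPe5a66a

/-- **Main theorem.** There are ergodic systems `X` and `Y`, where `X` is a factor of `Y`, such that
`X` has each of the four kinds of chaos and `Y` has none of them (in both readings of refining). -/
theorem result : ∃ X Y : System, IsErgodic X ∧ IsErgodic Y ∧ IsFactor X Y ∧
    (∀ (R : Reading) (c : Notion), HasChaos R c X) ∧
    (∀ (R : Reading) (c : Notion), ¬ HasChaos R c Y) := by
  obtain ⟨Q, hQ⟩ := exists_badSeq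
  refine ⟨ofBorel XX muX TX measurePreserving_TX, ofBorel YY muY TY measurePreserving_TY,
    isErgodic_ofBorel _ ergodic_TX, isErgodic_ofBorel _ ergodic_TY,
    isFactor_ofBorel _ _ (π := Prod.fst) ?_ (fun y => rfl), ?_, ?_⟩
  · exact measurePreserving_fst
  · exact hasChaos_ofBorel _ borelChaos_TX
  · exact not_hasChaos_ofBorel _ hQ

end Pool.Agent.Results.MP_e5a66a_an.ChaosNotInherited
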